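import Pool.Agent.N933.GQ.Par
import Pool.Agent.N933.GQ.Fin
import Pool.Agent.R988.Up

/-! The second moment of the resolvent, laws on `[-c, c]` of arbitrary variance, `d ≥ 3`. -/

set_option autoImplicit false
set_option linter.unusedVariables false

open scoped BigOperators Topology
open MeasureTheory Filter Set

namespace Pool.Agent.N933.GQ

open Pool.Agent.H4R2.LO (Zd)
open Pool.Agent.TH794.QD
open Pool.Agent.TH794.QE

/-- **the second moment of the resolvent, laws on `[-c, c]` of arbitrary variance** -/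
theorem baseQ (d : ℕ) (hd : 3 ≤ d) : ∃ c0 : ℝ, 0 < c0 ∧ ∀ c : ℝ, 0 < c → c ≤ c0 →
    ∀ (μ : Measure ℝ), IsProbabilityMeasure μ → (∀ᵐ s ∂μ, |s| ≤ c) → ∫ s, s ∂μ = 0 →
    ∀ s2 : ℝ, ∫ s, s ^ 2 ∂μ = s2 → c ^ (81 / 40 : ℝ) ≤ s2 →
      ∃ G : Set (Zd d → ℝ), MeasurableSet G ∧
        1 - Real.exp (-c ^ (-(1 / 101) : ℝ)) ≤
          (Measure.infinitePi fun _ : Zd d => μ).real G ∧
        ∀ ω ∈ G, (∀ x, |ω x| ≤ c) ∧
          ∀ a : Zd d, ‖a‖ ≤ Real.exp (c ^ (-(1 / 101) : ℝ)) →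
          ∀ e : ℝ, |2 * (d : ℝ) - e| ≤ 3 * d → ∀ η : ℝ, c ^ (81 / 40 : ℝ) ≤ η → η ≤ s2 →
          ∀ u : Zd d → ℂ, Rs d (fun x => 2 * d + ω x) a e η u → ∀ j : Fin d,
            (Summable fun x => ((x j : ℝ) - a j) ^ 2 * ‖u x‖ ^ 2) ∧
            |η ^ 2 * s2 * QM a j u - 2 * Pg (fun E => GF (F0 d) (E : ℂ))
              (fun E => GF (F1 d) (E : ℂ)) (η / s2) (2 * d - e)| ≤ c ^ (1 / 300 : ℝ) := by
  have hO := Pool.Agent.W918.BK.Osc.osc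
  refine finQ d (fun E => |E| ≤ 3 * d) _ ?_ fun u u' E hu hu' hE => Pg_u _ _ u u' E hu hu'
    (GF_im hO d hd (E : ℂ) (by simp)).1 (GF_im hO d hd (E : ℂ) (by simp)).2
  obtain ⟨y0, h0⟩ := engineQ Pool.Agent.W193.BK.ES.es
    (Pool.Agent.W261.BK.third Pool.Agent.W540.BK.fac)
    (Pool.Agent.W240.BK.fluct (Pool.Agent.W240.BK.var Pool.Agent.W193.BK.ES.es))
    Pool.Agent.W475.BK.inv Pool.Agent.W975.BK.sup
    (Pool.Agent.W465.BK.qb (Pool.Agent.W240.BK.two Pool.Agent.W918.BK.Osc.osc))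
    Pool.Agent.W475.BK.low Pool.Agent.W790.BK.ADM.adm Pool.Agent.W540.BK.fac
    Pool.Agent.W918.BK.Osc.osc d hd 1 one_pos
  refine ⟨y0, fun y hy ν hν hνb hν0 Vv hVv hvV t ht1 ht2 => ?_⟩
  obtain ⟨G, hG, hP, hL⟩ := h0 y hy ν hν hνb hν0 Vv hVv hvV t ht1 ht2
  exact ⟨G, hG, hP, fun ξ hξ a ha E hE => hL ξ hξ a ha E hE⟩

end Pool.Agent.N933.GQ
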